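import Pool.Agent.Run7.h402.PG.IfaceS

/-!
Piece INV of project PG (helper402), by helper774.
-/

set_option autoImplicit false

open Finset Polynomial

namespace Run7.h774.PG

open Run7.h402.PG

theorem t_INV : S_INV := by
  intro K Ps W c f hPs hf0 hfp U
  classical
  set Q : ℕ := ∏ p ∈ Ps, p with hQ
  have hQpos : 0 < Q := Finset.prod_pos fun p hp => (hPs p hp).1.pos
  let A : Finset (Fin K → ℕ) := Fintype.piFinset fun i => range (U i / Q + 1)
  let X : Finset (Ps → Fin K → ℕ) := Fintype.piFinset fun p : Ps => Fintype.piFinset fun _ : Fin K => range (p : ℕ)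
  let e : (Fin K → ℕ) → (Fin K → ℕ) × (Ps → Fin K → ℕ) := fun u =>
    (fun i => u i / Q, fun p i => (((W : ℤ) * (u i : ℕ) + c i) % ((p : ℕ) : ℤ)).toNat)
  let F : (Fin K → ℕ) × (Ps → Fin K → ℕ) → ℝ := fun y => ∏ p : Ps, f p (fun i => ((y.2 p i : ℕ) : ℤ))
  have hnn : ∀ p : Ps, ∀ x : ℤ, 0 ≤ x % ((p : ℕ) : ℤ) := fun p x =>
    Int.emod_nonneg _ (by exact_mod_cast (hPs p p.2).1.ne_zero)
  have hcast : ∀ p : Ps, ∀ x : ℤ, (((x % ((p : ℕ) : ℤ)).toNat : ℕ) : ℤ) = x % ((p : ℕ) : ℤ) := fun p x =>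
    Int.toNat_of_nonneg (hnn p x)
  have hF0 : ∀ y, 0 ≤ F y := fun y => Finset.prod_nonneg fun p _ => hf0 p p.2 _
  -- step 1
  have s1 : ∑ u ∈ Fintype.piFinset (fun i : Fin K => range (U i)), ∏ p ∈ Ps, f p (fun i => (W : ℤ) * (u i : ℕ) + c i) =
      ∑ u ∈ Fintype.piFinset (fun i : Fin K => range (U i)), F (e u) := by
    refine Finset.sum_congr rfl fun u _ => ?_
    rw [← Finset.prod_coe_sort Ps (fun p => f p (fun i => (W : ℤ) * (u i : ℕ) + c i))]
    refine Finset.prod_congr rfl fun p _ => ?_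
    refine hfp p p.2 _ _ fun i => ?_
    simp only [e]
    rw [hcast]
    exact Int.dvd_self_sub_emod
  -- step 2
  have hinj : Set.InjOn e (Fintype.piFinset (fun i : Fin K => range (U i)) : Set (Fin K → ℕ)) := by
    intro u _ v _ huv
    have h1 := congrArg Prod.fst huv
    have h2 := congrArg Prod.snd huv
    ext i
    have h3 : u i / Q = v i / Q := congrFun h1 i
    have h4 : Q ∣ ((u i : ℤ) - v i).natAbs := by
      refine Finset.prod_primes_dvd _ (fun p hp => (hPs p hp).1.prime) fun p hp => ?_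
      have h5 : (((W : ℤ) * (u i : ℕ) + c i) % (p : ℤ)).toNat = (((W : ℤ) * (v i : ℕ) + c i) % (p : ℤ)).toNat :=
        congrFun (congrFun h2 ⟨p, hp⟩) i
      have h6 : ((W : ℤ) * (u i : ℕ) + c i) % (p : ℤ) = ((W : ℤ) * (v i : ℕ) + c i) % (p : ℤ) := by
        have h51 := hcast ⟨p, hp⟩ ((W : ℤ) * (u i : ℕ) + c i)
        have h52 := hcast ⟨p, hp⟩ ((W : ℤ) * (v i : ℕ) + c i)
        simp only at h51 h52
        rw [← h51, ← h52, h5]
      have h7 : (p : ℤ) ∣ (W : ℤ) * ((u i : ℤ) - v i) := by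
        have := Int.ModEq.dvd (Int.ModEq.symm (h6 : _ ≡ _ [ZMOD (p : ℤ)]))
        have h8 : (W : ℤ) * ((u i : ℤ) - v i) = (W : ℤ) * (u i : ℕ) + c i - ((W : ℤ) * (v i : ℕ) + c i) := by ring
        rw [h8]; exact this
      rcases (Nat.prime_iff_prime_int.1 (hPs p hp).1).dvd_or_dvd h7 with h | h
      · exact absurd (Int.natCast_dvd_natCast.1 h) (hPs p hp).2
      · exact Int.natCast_dvd.1 h
    have h5 : u i % Q = v i % Q := by
      have h6 : (Q : ℤ) ∣ (v i : ℤ) - u i := by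
        rw [← dvd_neg, neg_sub]
        exact Int.natCast_dvd.2 h4
      have h7 := (Nat.modEq_iff_dvd (n := Q) (a := u i) (b := v i)).2 h6
      exact h7
    rw [← Nat.div_add_mod (u i) Q, ← Nat.div_add_mod (v i) Q, h3, h5]
  have hmem : (Fintype.piFinset (fun i : Fin K => range (U i))).image e ⊆ A ×ˢ X := by
    intro y hy
    obtain ⟨u, hu, rfl⟩ := Finset.mem_image.1 hy
    refine Finset.mem_product.2 ⟨?_, ?_⟩
    · refine Fintype.mem_piFinset.2 fun i => ?_
      have := Finset.mem_range.1 (Fintype.mem_piFinset.1 hu i)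
      refine Finset.mem_range.2 ?_
      have h1 : u i / Q ≤ U i / Q := Nat.div_le_div_right this.le
      exact Nat.lt_succ_of_le h1
    · refine Fintype.mem_piFinset.2 fun p => Fintype.mem_piFinset.2 fun i => Finset.mem_range.2 ?_
      have h1 : ((W : ℤ) * (u i : ℕ) + c i) % ((p : ℕ) : ℤ) < ((p : ℕ) : ℤ) :=
        Int.emod_lt_of_pos _ (by exact_mod_cast (hPs p p.2).1.pos)
      have h2 := hcast p ((W : ℤ) * (u i : ℕ) + c i)
      simp only [e]
      omega
  have s2 : ∑ u ∈ Fintype.piFinset (fun i : Fin K => range (U i)), F (e u) ≤ ∑ y ∈ A ×ˢ X, F y := by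
    rw [← Finset.sum_image (f := F) (g := e) hinj]
    exact Finset.sum_le_sum_of_subset_of_nonneg hmem fun y _ _ => hF0 y
  -- step 3
  have s3 : ∑ y ∈ A ×ˢ X, F y = (A.card : ℝ) *
      ∏ p ∈ Ps, ∑ r ∈ Fintype.piFinset (fun _ : Fin K => range p), f p (fun i => ((r i : ℕ) : ℤ)) := by
    rw [Finset.sum_product]
    simp only [F]
    rw [Finset.sum_const, nsmul_eq_mul]
    congr 1
    rw [← Finset.prod_coe_sort Ps (fun p => ∑ r ∈ Fintype.piFinset (fun _ : Fin K => range p),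
      f p (fun i => ((r i : ℕ) : ℤ))), Finset.prod_univ_sum]
  have s4 : (A.card : ℝ) ≤ ∏ i, (((U i : ℝ) + (Q : ℕ)) / (Q : ℕ)) := by
    have h1 : A.card = ∏ i, (U i / Q + 1) := by
      simp only [A]
      rw [Fintype.card_piFinset]
      simp
    rw [h1]
    push_cast
    refine Finset.prod_le_prod (fun i _ => by positivity) fun i _ => ?_
    have hQ' : (0 : ℝ) < (Q : ℕ) := by exact_mod_cast hQpos
    rw [add_div, div_self hQ'.ne']
    have := @Nat.cast_div_le ℝ _ _ _ (U i) Q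
    linarith
  have hS0 : 0 ≤ ∏ p ∈ Ps, ∑ r ∈ Fintype.piFinset (fun _ : Fin K => range p), f p (fun i => ((r i : ℕ) : ℤ)) :=
    Finset.prod_nonneg fun p hp => Finset.sum_nonneg fun r _ => hf0 p hp _
  rw [s1]
  refine s2.trans ?_
  rw [s3]
  refine (mul_le_mul_of_nonneg_right s4 hS0).trans (le_of_eq ?_)
  rw [Finset.prod_div_distrib, Finset.prod_div_distrib, Finset.prod_const, Finset.card_univ, Fintype.card_fin,
    Finset.prod_pow]
  have h9 : ∏ p ∈ Ps, (p : ℝ) = (Q : ℕ) := by rw [hQ]; push_cast; rfl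
  rw [h9]
  ring

end Run7.h774.PG
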