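import Pool.Agent.Run7.h402.PG.IfaceS

/-!
Piece MI of project PG (helper402), by helper774.
-/

set_option autoImplicit false

open Finset Polynomial

namespace Run7.h774.PG

open Run7.h402.PG

lemma sum_rho (f : ℤ[X]) (p : ℕ) : ∑ t ∈ range p, rho f ((t : ℕ) : ℤ) p ≤ p := by
  classical
  have h1 : ∀ t ∈ range p, rho f ((t : ℕ) : ℤ) p = ∑ n ∈ range p, if (p : ℤ) ∣ f.eval (n : ℤ) + (t : ℤ) then 1 else 0 := by
    intro t _
    unfold rho
    rw [Finset.card_filter]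
  rw [Finset.sum_congr rfl h1, Finset.sum_comm]
  calc ∑ n ∈ range p, ∑ t ∈ range p, (if (p : ℤ) ∣ f.eval (n : ℤ) + (t : ℤ) then 1 else 0)
      ≤ ∑ _n ∈ range p, 1 := by
        refine Finset.sum_le_sum fun n _ => ?_
        rw [← Finset.card_filter]
        refine Finset.card_le_one.2 fun a ha b hb => ?_
        obtain ⟨ha1, ha2⟩ := Finset.mem_filter.1 ha
        obtain ⟨hb1, hb2⟩ := Finset.mem_filter.1 hb
        have h3 : (p : ℤ) ∣ (b : ℤ) - a := by
          have := dvd_sub hb2 ha2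
          have h4 : f.eval (n : ℤ) + (b : ℤ) - (f.eval (n : ℤ) + (a : ℤ)) = (b : ℤ) - a := by ring
          rwa [h4] at this
        have h5 := (Nat.modEq_iff_dvd (n := p) (a := a) (b := b)).2 h3
        have h6 : a % p = b % p := h5
        rwa [Nat.mod_eq_of_lt (Finset.mem_range.1 ha1), Nat.mod_eq_of_lt (Finset.mem_range.1 hb1)] at h6
    _ = p := by simp

lemma sum_coord (K p : ℕ) (i : Fin K) (g : ℕ → ℝ) :
    (p : ℝ) * ∑ r ∈ Fintype.piFinset (fun _ : Fin K => range p), g (r i) = (∑ t ∈ range p, g t) * (p : ℝ) ^ K := by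
  classical
  have h1 : ∑ r ∈ Fintype.piFinset (fun _ : Fin K => range p), g (r i) =
      ∑ r ∈ Fintype.piFinset (fun _ : Fin K => range p), ∏ j, (if j = i then g (r j) else 1) := by
    refine Finset.sum_congr rfl fun r _ => ?_
    rw [Finset.prod_ite_eq' Finset.univ i (fun j => g (r j))]
    simp
  rw [h1, ← Finset.prod_univ_sum (fun _ : Fin K => range p) (fun j t => if j = i then g t else 1),
    ← Finset.mul_prod_erase _ _ (Finset.mem_univ i)]
  have h2 : ∏ x ∈ Finset.univ.erase i, ∑ t ∈ range p, (if x = i then g t else 1) = ∏ _x ∈ Finset.univ.erase i, (p : ℝ) := by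
    refine Finset.prod_congr rfl fun x hx => ?_
    simp [Finset.ne_of_mem_erase hx]
  have h3 : (p : ℝ) ^ K = (p : ℝ) * ∏ _x ∈ (Finset.univ : Finset (Fin K)).erase i, (p : ℝ) := by
    rw [Finset.mul_prod_erase Finset.univ (fun _ : Fin K => (p : ℝ)) (Finset.mem_univ i)]
    simp
  rw [h2, h3]
  simp only [if_true]
  ring

lemma inv_le {x : ℝ} (h0 : 0 ≤ x) (h1 : x ≤ 1 / 2) : (1 - x)⁻¹ ≤ 1 + x + 2 * x ^ 2 := by
  rw [inv_le_iff_one_le_mul₀ (by linarith)]
  nlinarith [mul_nonneg (mul_nonneg h0 h0) (by linarith : 0 ≤ 1 - 2 * x)]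

theorem t_MI (hNU : S_NU) : S_MI := by
  intro K D p P hp h8 hD hP
  classical
  have hp0 : (0 : ℝ) < p := by exact_mod_cast hp.pos
  have h8' : (8 : ℝ) * D * K ≤ p := by exact_mod_cast h8
  have hnu : ∀ r : Fin K → ℕ, (nuS P (fun i => ((r i : ℕ) : ℤ)) p : ℝ) ≤ D * K := fun r => by
    exact_mod_cast hNU.2.2 K D p P _ hp hD hP
  have h1 : ∀ r : Fin K → ℕ, (1 - (nuS P (fun i => ((r i : ℕ) : ℤ)) p : ℝ) / p)⁻¹ ≤
      1 + 2 * (D * K / (p : ℝ)) ^ 2 + (nuS P (fun i => ((r i : ℕ) : ℤ)) p : ℝ) / p := by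
    intro r
    set ν : ℝ := (nuS P (fun i => ((r i : ℕ) : ℤ)) p : ℝ) with hν
    have hν0 : 0 ≤ ν := Nat.cast_nonneg _
    have hx0 : 0 ≤ ν / p := by positivity
    have hx1 : ν / p ≤ 1 / 2 := by
      rw [div_le_iff₀ hp0]
      have := hnu r
      nlinarith
    have h2 := inv_le hx0 hx1
    have h3 : ν / p ≤ D * K / p := div_le_div_of_nonneg_right (hnu r) hp0.le
    have h4 : (ν / p) ^ 2 ≤ (D * K / p) ^ 2 := pow_le_pow_left₀ hx0 h3 2
    linarith
  have hsum : ∑ r ∈ Fintype.piFinset (fun _ : Fin K => range p), (nuS P (fun i => ((r i : ℕ) : ℤ)) p : ℝ) ≤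
      K * (p : ℝ) ^ K := by
    calc ∑ r ∈ Fintype.piFinset (fun _ : Fin K => range p), (nuS P (fun i => ((r i : ℕ) : ℤ)) p : ℝ)
        ≤ ∑ r ∈ Fintype.piFinset (fun _ : Fin K => range p), ∑ i, (rho (P i) ((r i : ℕ) : ℤ) p : ℝ) := by
          refine Finset.sum_le_sum fun r _ => ?_
          exact_mod_cast hNU.2.1 K p P _
      _ = ∑ i, ∑ r ∈ Fintype.piFinset (fun _ : Fin K => range p), (rho (P i) ((r i : ℕ) : ℤ) p : ℝ) := Finset.sum_comm
      _ ≤ ∑ _i : Fin K, (p : ℝ) ^ K := by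
          refine Finset.sum_le_sum fun i _ => ?_
          have h2 := sum_coord K p i (fun t => (rho (P i) ((t : ℕ) : ℤ) p : ℝ))
          have h3 : (∑ t ∈ range p, (rho (P i) ((t : ℕ) : ℤ) p : ℝ)) ≤ p := by exact_mod_cast sum_rho (P i) p
          have h4 : (p : ℝ) * ∑ r ∈ Fintype.piFinset (fun _ : Fin K => range p), (rho (P i) ((r i : ℕ) : ℤ) p : ℝ) ≤
              (p : ℝ) * (p : ℝ) ^ K := by
            rw [h2]
            exact mul_le_mul_of_nonneg_right h3 (by positivity)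
          exact le_of_mul_le_mul_left h4 hp0
      _ = K * (p : ℝ) ^ K := by simp
  have hcard : ((Fintype.piFinset (fun _ : Fin K => range p)).card : ℝ) = (p : ℝ) ^ K := by
    rw [Fintype.card_piFinset]; simp
  have hpK : (0 : ℝ) < (p : ℝ) ^ K := by positivity
  rw [div_le_iff₀ hpK]
  calc ∑ r ∈ Fintype.piFinset (fun _ : Fin K => range p), (1 - (nuS P (fun i => ((r i : ℕ) : ℤ)) p : ℝ) / p)⁻¹
      ≤ ∑ r ∈ Fintype.piFinset (fun _ : Fin K => range p), (1 + 2 * (D * K / (p : ℝ)) ^ 2 +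
        (nuS P (fun i => ((r i : ℕ) : ℤ)) p : ℝ) / p) := Finset.sum_le_sum fun r _ => h1 r
    _ = (p : ℝ) ^ K * (1 + 2 * (D * K / (p : ℝ)) ^ 2) +
        (∑ r ∈ Fintype.piFinset (fun _ : Fin K => range p), (nuS P (fun i => ((r i : ℕ) : ℤ)) p : ℝ)) / p := by
        rw [Finset.sum_add_distrib, Finset.sum_const, nsmul_eq_mul, hcard, Finset.sum_div]
    _ ≤ (p : ℝ) ^ K * (1 + 2 * (D * K / (p : ℝ)) ^ 2) + K * (p : ℝ) ^ K / p := by
        have := div_le_div_of_nonneg_right hsum hp0.le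
        linarith
    _ = (1 + K / p + 2 * (D * K / (p : ℝ)) ^ 2) * (p : ℝ) ^ K := by ring

end Run7.h774.PG
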