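import Pool.Agent.Run7.h402.PG.IfaceS

/-!
Piece NU of project PG (helper402), by helper774.
-/

set_option autoImplicit false

open Finset Polynomial

namespace Run7.h774.PG

open Run7.h402.PG

lemma rho_le (D p : ℕ) (f : ℤ[X]) (m : ℤ) (hp : p.Prime) (hf : f.natDegree ≤ D) (hP : Prim f p) :
    rho f m p ≤ D := by
  have := Fact.mk hp
  classical
  set g : (ZMod p)[X] := (f + C m).map (Int.castRingHom (ZMod p)) with hg
  obtain ⟨j, hj1, hj⟩ := hP
  have hg0 : g ≠ 0 := by
    intro h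
    have h1 : g.coeff j = 0 := by rw [h, coeff_zero]
    rw [hg, coeff_map, coeff_add, coeff_C, if_neg (by omega), add_zero] at h1
    exact hj ((ZMod.intCast_zmod_eq_zero_iff_dvd _ _).1 (by simpa using h1))
  have hdeg : g.natDegree ≤ D := by
    refine (natDegree_map_le).trans ((natDegree_add_le _ _).trans ?_)
    rw [natDegree_C]
    exact max_le hf (Nat.zero_le _)
  refine le_trans ?_ ((card_roots' g).trans hdeg)
  refine le_trans ?_ (Multiset.toFinset_card_le g.roots)
  refine Finset.card_le_card_of_injOn (fun n : ℕ => (n : ZMod p)) ?_ ?_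
  · intro n hn
    have h1 := (Finset.mem_filter.1 hn).2
    simp only [Finset.mem_coe, Multiset.mem_toFinset]
    rw [mem_roots hg0, IsRoot.def, hg, eval_map, eval₂_add, eval₂_C]
    have h2 : ((f.eval (n : ℤ) + m : ℤ) : ZMod p) = 0 := (ZMod.intCast_zmod_eq_zero_iff_dvd _ _).2 h1
    have h3 : eval₂ (Int.castRingHom (ZMod p)) (n : ZMod p) f = ((f.eval (n : ℤ) : ℤ) : ZMod p) := by
      have := Polynomial.hom_eval₂ f (RingHom.id ℤ) (Int.castRingHom (ZMod p)) (n : ℤ)
      simp only [RingHomCompTriple.comp_eq, eq_intCast, Int.cast_natCast] at this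
      rw [← this]; rfl
    rw [h3]
    push_cast at h2 ⊢
    exact h2
  · intro a ha b hb hab
    have ha' := Finset.mem_range.1 (Finset.mem_filter.1 ha).1
    have hb' := Finset.mem_range.1 (Finset.mem_filter.1 hb).1
    have h1 := (ZMod.natCast_eq_natCast_iff' a b p).1 hab
    rwa [Nat.mod_eq_of_lt ha', Nat.mod_eq_of_lt hb'] at h1

lemma nuS_le_sum (K p : ℕ) (P : Fin K → ℤ[X]) (m : Fin K → ℤ) : nuS P m p ≤ ∑ i, rho (P i) (m i) p := by
  classical
  have h1 : ((range p).filter (fun n : ℕ => ∃ i, (p : ℤ) ∣ (P i).eval (n : ℤ) + m i)) ⊆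
      Finset.univ.biUnion fun i => (range p).filter (fun n : ℕ => (p : ℤ) ∣ (P i).eval (n : ℤ) + m i) := by
    intro n hn
    obtain ⟨h2, i, hi⟩ := Finset.mem_filter.1 hn
    exact Finset.mem_biUnion.2 ⟨i, Finset.mem_univ _, Finset.mem_filter.2 ⟨h2, hi⟩⟩
  have h2 := (Finset.card_le_card h1).trans Finset.card_biUnion_le
  unfold nuS rho
  convert h2 using 2

theorem t_NU : S_NU := by
  refine ⟨rho_le, nuS_le_sum, ?_⟩
  intro K D p P m hp hD hP
  refine (nuS_le_sum K p P m).trans ?_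
  calc ∑ i, rho (P i) (m i) p ≤ ∑ _i : Fin K, D := Finset.sum_le_sum fun i _ => rho_le D p (P i) (m i) hp (hD i) (hP i)
    _ = D * K := by simp [mul_comm]

end Run7.h774.PG
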