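import Pool.Agent.Run7.h402.PG.IfaceS

/-!
Piece SA of project PG (helper402), by helper774.
-/

set_option autoImplicit false

open Finset Polynomial

namespace Run7.h774.PG

open Run7.h402.PG

lemma nuS_congr {K : ℕ} (P : Fin K → ℤ[X]) (p : ℕ) (m m' : Fin K → ℤ) (h : ∀ i, (p : ℤ) ∣ m i - m' i) :
    nuS P m p = nuS P m' p := by
  classical
  unfold nuS
  congr 1
  refine Finset.filter_congr fun n _ => ?_
  refine exists_congr fun i => ?_
  have h1 : (P i).eval (n : ℤ) + m i = (P i).eval (n : ℤ) + m' i + (m i - m' i) := by ring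
  rw [h1]
  exact (Int.dvd_add_left (h i)).symm.symm

lemma sum_inv_sq (w N : ℕ) (S : Finset ℕ) (hS : ∀ p ∈ S, w < p ∧ p ≤ N) :
    ∑ p ∈ S, ((p : ℝ) ^ 2)⁻¹ ≤ 2 / ((w : ℝ) + 1) := by
  refine le_trans (Finset.sum_le_sum_of_subset_of_nonneg (t := Ioo w (N + 1)) ?_ fun i _ _ => by positivity)
    (sum_Ioo_inv_sq_le w (N + 1))
  intro p hp
  exact Finset.mem_Ioo.2 ⟨(hS p hp).1, Nat.lt_succ_of_le (hS p hp).2⟩

theorem t_SA (hNU : S_NU) (hINV : S_INV) (hMI : S_MI) : S_SA := by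
  intro A B D
  refine ⟨D * B + A + 1, 800 * B + 3, ?_⟩
  intro L hL K P w W U c hyp
  obtain ⟨hK1, hD1, hKB, hdeg, hprim, h8w, hW, hU⟩ := hyp
  classical
  have hB0 : (0 : ℝ) ≤ B := Nat.cast_nonneg _
  have hL3 : (3 : ℝ) ≤ L := by linarith
  have hL0 : (0 : ℝ) < L := by linarith
  have hLB : 800 * (B : ℝ) ≤ L := by linarith
  have hlogL : Real.log L ≤ L := Real.log_le_self hL0.le
  have hlogL0 : 0 ≤ Real.log L := Real.log_nonneg (by linarith)
  set Ps : Finset ℕ := (Icc 1 ⌊L / 8⌋₊).filter (fun p => p.Prime ∧ w < p) with hPs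
  have hmem : ∀ p ∈ Ps, p.Prime ∧ w < p ∧ p ≤ ⌊L / 8⌋₊ := by
    intro p hp
    obtain ⟨h1, h2, h3⟩ := Finset.mem_filter.1 hp
    exact ⟨h2, h3, (Finset.mem_Icc.1 h1).2⟩
  have h8p : ∀ p ∈ Ps, 8 * D * K ≤ p := fun p hp => h8w.trans (hmem p hp).2.1.le
  have hDK1 : 1 ≤ D * K := Nat.one_le_iff_ne_zero.2 (Nat.mul_ne_zero (by omega) (by omega))
  have hp0 : ∀ p ∈ Ps, (0 : ℝ) < p := fun p hp => by exact_mod_cast (hmem p hp).1.pos
  have hnu : ∀ p ∈ Ps, ∀ m : Fin K → ℤ, (nuS P m p : ℝ) ≤ D * K := fun p hp m => by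
    exact_mod_cast hNU.2.2 K D p P m (hmem p hp).1 hdeg fun i => hprim i p (hmem p hp).1
  have hnum : ∀ p ∈ Ps, ∀ m : Fin K → ℤ, 0 < 1 - (nuS P m p : ℝ) / p := by
    intro p hp m
    have h1 : (8 : ℝ) * D * K ≤ p := by exact_mod_cast h8p p hp
    have h2 : (1 : ℝ) ≤ D * K := by exact_mod_cast hDK1
    have h3 : (nuS P m p : ℝ) / p < 1 := by
      rw [div_lt_one (hp0 p hp)]
      have := hnu p hp m
      nlinarith
    linarith
  have hden : ∀ p ∈ Ps, 0 < 1 - 1 / (p : ℝ) := by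
    intro p hp
    have h1 : (1 : ℝ) < p := by exact_mod_cast (hmem p hp).1.one_lt
    have : 1 / (p : ℝ) < 1 := by rw [div_lt_one (hp0 p hp)]; exact h1
    linarith
  have hFac : ∀ p ∈ Ps, ∀ m : Fin K → ℤ, 0 < Fac P m p := by
    intro p hp m
    unfold Fac
    exact div_pos (hnum p hp m) (pow_pos (hden p hp) K)
  let f : ℕ → (Fin K → ℤ) → ℝ := fun p m => (Fac P m p)⁻¹
  have hinv := hINV K Ps W c f (fun p hp => ⟨(hmem p hp).1, hW p (hmem p hp).1 (hmem p hp).2.1⟩)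
    (fun p hp m => (inv_pos.2 (hFac p hp m)).le)
    (fun p hp m m' h => by simp only [f, Fac]; rw [nuS_congr P p m m' h]) U
  -- the means
  have hmean : ∀ p ∈ Ps, (∑ r ∈ Fintype.piFinset (fun _ : Fin K => range p), f p (fun i => ((r i : ℕ) : ℤ))) /
      (p : ℝ) ^ K ≤ Real.exp (2 * (D * K / (p : ℝ)) ^ 2) := by
    intro p hp
    have h1 := hMI K D p P (hmem p hp).1 (h8p p hp) hdeg fun i => hprim i p (hmem p hp).1
    have h2 : ∀ r : Fin K → ℕ, f p (fun i => ((r i : ℕ) : ℤ)) =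
        (1 - 1 / (p : ℝ)) ^ K * (1 - (nuS P (fun i => ((r i : ℕ) : ℤ)) p : ℝ) / p)⁻¹ := by
      intro r
      simp only [f, Fac]
      rw [inv_div, div_eq_mul_inv]
    simp only [h2]
    rw [← Finset.mul_sum, mul_div_assoc]
    have h3 : (1 - 1 / (p : ℝ)) ^ K ≤ Real.exp (-((K : ℝ) / p)) := by
      have h4 : 1 - 1 / (p : ℝ) ≤ Real.exp (-(1 / (p : ℝ))) := by
        have := Real.add_one_le_exp (-(1 / (p : ℝ)))
        linarith
      calc (1 - 1 / (p : ℝ)) ^ K ≤ (Real.exp (-(1 / (p : ℝ)))) ^ K := pow_le_pow_left₀ (hden p hp).le h4 K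
        _ = Real.exp (-((K : ℝ) / p)) := by rw [← Real.exp_nat_mul]; congr 1; ring
    have h5 : 1 + (K : ℝ) / p + 2 * (D * K / (p : ℝ)) ^ 2 ≤ Real.exp ((K : ℝ) / p + 2 * (D * K / (p : ℝ)) ^ 2) := by
      have := Real.add_one_le_exp ((K : ℝ) / p + 2 * (D * K / (p : ℝ)) ^ 2)
      linarith
    calc (1 - 1 / (p : ℝ)) ^ K * ((∑ r ∈ Fintype.piFinset (fun _ : Fin K => range p),
          (1 - (nuS P (fun i => ((r i : ℕ) : ℤ)) p : ℝ) / p)⁻¹) / (p : ℝ) ^ K)
        ≤ Real.exp (-((K : ℝ) / p)) * Real.exp ((K : ℝ) / p + 2 * (D * K / (p : ℝ)) ^ 2) := by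
          refine mul_le_mul h3 (h1.trans h5) ?_ (Real.exp_pos _).le
          refine div_nonneg (Finset.sum_nonneg fun r _ => (inv_pos.2 (hnum p hp _)).le) (by positivity)
      _ = Real.exp (2 * (D * K / (p : ℝ)) ^ 2) := by rw [← Real.exp_add]; congr 1; ring
  have hprod : ∏ p ∈ Ps, ((∑ r ∈ Fintype.piFinset (fun _ : Fin K => range p), f p (fun i => ((r i : ℕ) : ℤ))) /
      (p : ℝ) ^ K) ≤ L ^ (D * B) := by
    calc ∏ p ∈ Ps, ((∑ r ∈ Fintype.piFinset (fun _ : Fin K => range p), f p (fun i => ((r i : ℕ) : ℤ))) /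
          (p : ℝ) ^ K) ≤ ∏ p ∈ Ps, Real.exp (2 * (D * K / (p : ℝ)) ^ 2) := by
          refine Finset.prod_le_prod (fun p hp => ?_) hmean
          exact div_nonneg (Finset.sum_nonneg fun r _ => (inv_pos.2 (hFac p hp _)).le) (by positivity)
      _ = Real.exp (∑ p ∈ Ps, 2 * (D * K / (p : ℝ)) ^ 2) := (Real.exp_sum _ _).symm
      _ ≤ Real.exp ((D : ℝ) * K) := by
          refine Real.exp_le_exp.2 ?_
          have h1 : ∑ p ∈ Ps, 2 * (D * K / (p : ℝ)) ^ 2 = 2 * (D * K : ℝ) ^ 2 * ∑ p ∈ Ps, ((p : ℝ) ^ 2)⁻¹ := by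
            rw [Finset.mul_sum]
            refine Finset.sum_congr rfl fun p _ => ?_
            rw [div_pow]; ring
          have h2 := sum_inv_sq w ⌊L / 8⌋₊ Ps fun p hp => (hmem p hp).2
          have h3 : (8 : ℝ) * D * K ≤ w := by exact_mod_cast h8w
          have h4 : (1 : ℝ) ≤ D * K := by exact_mod_cast hDK1
          rw [h1]
          calc 2 * (D * K : ℝ) ^ 2 * ∑ p ∈ Ps, ((p : ℝ) ^ 2)⁻¹ ≤ 2 * (D * K : ℝ) ^ 2 * (2 / ((w : ℝ) + 1)) :=
                mul_le_mul_of_nonneg_left h2 (by positivity)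
            _ ≤ (D : ℝ) * K := by
                rw [← mul_div_assoc, div_le_iff₀ (by positivity)]
                nlinarith
      _ ≤ Real.exp ((D * B : ℕ) * Real.log L) := by
          refine Real.exp_le_exp.2 ?_
          push_cast
          have : (0 : ℝ) ≤ D := Nat.cast_nonneg _
          nlinarith
      _ = L ^ (D * B) := by rw [Real.exp_nat_mul, Real.exp_log hL0]
  -- the modulus
  have hQ : (((∏ p ∈ Ps, p : ℕ)) : ℝ) ≤ Real.exp (L / 5) := by
    have h1 : ∏ p ∈ Ps, p ≤ primorial ⌊L / 8⌋₊ := by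
      unfold primorial
      refine Finset.prod_le_prod_of_subset_of_one_le' ?_ fun i hi _ => (Finset.mem_filter.1 hi).2.one_lt.le
      intro p hp
      exact Finset.mem_filter.2 ⟨Finset.mem_range.2 (Nat.lt_succ_of_le (hmem p hp).2.2), (hmem p hp).1⟩
    have h2 : ∏ p ∈ Ps, p ≤ 4 ^ ⌊L / 8⌋₊ := h1.trans (primorial_le_four_pow _)
    have h3 : (((∏ p ∈ Ps, p : ℕ)) : ℝ) ≤ (4 : ℝ) ^ ⌊L / 8⌋₊ := by exact_mod_cast h2
    refine h3.trans ?_
    have h4 : (4 : ℝ) = Real.exp (Real.log 4) := (Real.exp_log (by norm_num)).symm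
    rw [h4, ← Real.exp_nat_mul]
    refine Real.exp_le_exp.2 ?_
    have h5 : Real.log 4 ≤ 1.6 := by
      have h6 : (4 : ℝ) = 2 ^ 2 := by norm_num
      rw [h6, Real.log_pow]
      have := Real.log_two_lt_d9
      push_cast
      linarith
    have h6 : (⌊L / 8⌋₊ : ℝ) ≤ L / 8 := Nat.floor_le (by positivity)
    have h7 : 0 ≤ Real.log 4 := Real.log_nonneg (by norm_num)
    nlinarith
  have hUQ : ∏ i, ((U i : ℝ) + (∏ p ∈ Ps, p : ℕ)) ≤ L * ∏ i, (U i : ℝ) := by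
    have h1 : ∀ i, (U i : ℝ) + (∏ p ∈ Ps, p : ℕ) ≤ (U i : ℝ) * Real.exp (Real.exp (-(L / 20))) := by
      intro i
      have h2 : Real.exp (L / 5) = Real.exp (L / 4) * Real.exp (-(L / 20)) := by
        rw [← Real.exp_add]; congr 1; ring
      have h3 : Real.exp (L / 5) ≤ (U i : ℝ) * Real.exp (-(L / 20)) := by
        rw [h2]; exact mul_le_mul_of_nonneg_right (hU i) (Real.exp_pos _).le
      have h4 := Real.add_one_le_exp (Real.exp (-(L / 20)))
      have h5 : (0 : ℝ) ≤ U i := Nat.cast_nonneg _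
      nlinarith
    calc ∏ i, ((U i : ℝ) + (∏ p ∈ Ps, p : ℕ)) ≤ ∏ i, ((U i : ℝ) * Real.exp (Real.exp (-(L / 20)))) :=
          Finset.prod_le_prod (fun i _ => by positivity) fun i _ => h1 i
      _ = (∏ i, (U i : ℝ)) * Real.exp (K * Real.exp (-(L / 20))) := by
          rw [Finset.prod_mul_distrib, Finset.prod_const, Finset.card_univ, Fintype.card_fin, Real.exp_nat_mul]
      _ ≤ (∏ i, (U i : ℝ)) * L := by
          refine mul_le_mul_of_nonneg_left ?_ (Finset.prod_nonneg fun i _ => Nat.cast_nonneg _)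
          have h2 : (K : ℝ) * Real.exp (-(L / 20)) ≤ 1 := by
            rw [Real.exp_neg, mul_inv_le_iff₀ (Real.exp_pos _), one_mul]
            have h3 := Real.quadratic_le_exp_of_nonneg (by positivity : 0 ≤ L / 20)
            have h4 : (K : ℝ) ≤ B * L := hKB.trans (mul_le_mul_of_nonneg_left hlogL hB0)
            nlinarith
          have h5 : Real.exp (K * Real.exp (-(L / 20))) ≤ Real.exp 1 := Real.exp_le_exp.2 h2
          have h6 := Real.exp_one_lt_d9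
          linarith
      _ = L * ∏ i, (U i : ℝ) := by ring
  -- Markov
  set Bad := (Fintype.piFinset (fun i : Fin K => range (U i))).filter (fun u =>
    ∏ p ∈ Ps, Fac P (fun i => (W : ℤ) * (u i : ℕ) + c i) p < 1 / L ^ (D * B + A + 1)) with hBad
  have hbig : ∀ u ∈ Bad, L ^ (D * B + A + 1) ≤ ∏ p ∈ Ps, f p (fun i => (W : ℤ) * (u i : ℕ) + c i) := by
    intro u hu
    have h1 := (Finset.mem_filter.1 hu).2
    simp only [f]
    rw [Finset.prod_inv_distrib]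
    have h2 : 0 < ∏ p ∈ Ps, Fac P (fun i => (W : ℤ) * (u i : ℕ) + c i) p :=
      Finset.prod_pos fun p hp => hFac p hp _
    rw [le_inv_comm₀ (by positivity) h2, ← one_div]
    exact h1.le
  have hM : (Bad.card : ℝ) * L ^ (D * B + A + 1) ≤ L * (∏ i, (U i : ℝ)) * L ^ (D * B) := by
    calc (Bad.card : ℝ) * L ^ (D * B + A + 1) = ∑ _u ∈ Bad, L ^ (D * B + A + 1) := by
          rw [Finset.sum_const, nsmul_eq_mul]
      _ ≤ ∑ u ∈ Bad, ∏ p ∈ Ps, f p (fun i => (W : ℤ) * (u i : ℕ) + c i) := Finset.sum_le_sum hbig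
      _ ≤ ∑ u ∈ Fintype.piFinset (fun i : Fin K => range (U i)), ∏ p ∈ Ps, f p (fun i => (W : ℤ) * (u i : ℕ) + c i) :=
          Finset.sum_le_sum_of_subset_of_nonneg (Finset.filter_subset _ _) fun u _ _ =>
            Finset.prod_nonneg fun p hp => (inv_pos.2 (hFac p hp _)).le
      _ ≤ (∏ i, ((U i : ℝ) + (∏ p ∈ Ps, p : ℕ))) *
          ∏ p ∈ Ps, (∑ r ∈ Fintype.piFinset (fun _ : Fin K => range p), f p (fun i => ((r i : ℕ) : ℤ))) / (p : ℝ) ^ K := hinv
      _ ≤ L * (∏ i, (U i : ℝ)) * L ^ (D * B) := by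
          refine mul_le_mul hUQ hprod ?_ (mul_nonneg hL0.le (Finset.prod_nonneg fun i _ => Nat.cast_nonneg _))
          exact Finset.prod_nonneg fun p hp => div_nonneg (Finset.sum_nonneg fun r _ => (inv_pos.2 (hFac p hp _)).le)
            (by positivity)
  rw [le_div_iff₀ (by positivity)]
  have h1 : (0 : ℝ) < L ^ (D * B + 1) := by positivity
  have h2 : ((Bad.card : ℝ) * L ^ A) * L ^ (D * B + 1) ≤ (∏ i, (U i : ℝ)) * L ^ (D * B + 1) := by
    calc ((Bad.card : ℝ) * L ^ A) * L ^ (D * B + 1) = (Bad.card : ℝ) * L ^ (D * B + A + 1) := by ring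
      _ ≤ L * (∏ i, (U i : ℝ)) * L ^ (D * B) := hM
      _ = (∏ i, (U i : ℝ)) * L ^ (D * B + 1) := by ring
  exact le_of_mul_le_mul_right h2 h1

end Run7.h774.PG
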